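import Pool.Agent.H55.CU.Targets

/-!
# Row VDC of cou_modules (MP_65efe8_pr): the decomposition in cells
-/

set_option autoImplicit false

open MeasureTheory ProbabilityTheory Filter Topology Pool.Agent.H95 Pool.Agent.H95.Cop
  Pool.Agent.H96.Cop Pool.Agent.H55.CU

namespace Pool.Agent.H63.CU

lemma vsum_cells (k n : ℕ) (f : ℕ → ℝ) :
    ∑ s ∈ Finset.range (n * k), f s =
      ∑ a ∈ Finset.range n, ∑ r ∈ Finset.range k, f (a * k + r) := by
  induction n with
  | zero => simp
  | succ n ih =>
    rw [Finset.sum_range_succ, ← ih, add_mul, one_mul, Finset.sum_range_add]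

lemma vsum_shift (A : Finset ℕ) (N c : ℕ) (g : ℕ → ℝ) (hg : ∀ u, 0 ≤ g u)
    (hA : ∀ t ∈ A, c + t < N) : ∑ t ∈ A, g (c + t) ≤ ∑ u ∈ Finset.range N, g u := by
  have h1 : ∑ t ∈ A, g (c + t) = ∑ u ∈ A.image (fun t => c + t), g u := by
    rw [Finset.sum_image]
    intro x _ y _ hxy
    simpa using hxy
  rw [h1]
  apply Finset.sum_le_sum_of_subset_of_nonneg
  · intro u hu
    rw [Finset.mem_image] at hu
    obtain ⟨t, ht, rfl⟩ := hu
    exact Finset.mem_range.2 (hA t ht)
  · intro u _ _
    exact hg u

lemma vreidx (a i : ℕ) (F : ℕ → ℝ) :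
    ∑ i' ∈ Finset.range (a + 1), (if i < i' then F i' else 0) =
      ∑ j ∈ Finset.Icc 1 a, if i + j ≤ a then F (i + j) else 0 := by
  rw [← Finset.sum_filter, ← Finset.sum_filter]
  refine Finset.sum_nbij' (fun i' => i' - i) (fun j => i + j) ?_ ?_ ?_ ?_ ?_
  · intro x hx
    simp only [Finset.mem_filter, Finset.mem_range, Finset.mem_Icc] at hx ⊢
    omega
  · intro x hx
    simp only [Finset.mem_filter, Finset.mem_range, Finset.mem_Icc] at hx ⊢
    omega
  · intro x hx
    simp only [Finset.mem_filter, Finset.mem_range] at hx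
    omega
  · intro x hx
    simp only [Finset.mem_filter, Finset.mem_Icc] at hx
    omega
  · intro x hx
    simp only [Finset.mem_filter, Finset.mem_range] at hx
    congr 1
    omega

lemma vswap (E R I J : Finset ℕ) (a b c : ℕ → ℕ → ℝ) :
    ∑ e ∈ E, ∑ r ∈ R, ∑ i ∈ I, ∑ j ∈ J, a e i * c i j * b r j =
      ∑ i ∈ I, ∑ j ∈ J, (∑ e ∈ E, a e i) * c i j * (∑ r ∈ R, b r j) := by
  have h1 : ∀ e ∈ E, ∑ r ∈ R, ∑ i ∈ I, ∑ j ∈ J, a e i * c i j * b r j =
      ∑ i ∈ I, ∑ j ∈ J, ∑ r ∈ R, a e i * c i j * b r j := by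
    intro e _
    rw [Finset.sum_comm]
    apply Finset.sum_congr rfl
    intro i _
    rw [Finset.sum_comm]
  rw [Finset.sum_congr rfl h1, Finset.sum_comm]
  apply Finset.sum_congr rfl
  intro i _
  rw [Finset.sum_comm]
  apply Finset.sum_congr rfl
  intro j _
  rw [Finset.sum_mul, Finset.sum_mul]
  apply Finset.sum_congr rfl
  intro e _
  rw [Finset.mul_sum]

/-- the contribution of one pair `e`, `r` -/
lemma vterm (U U0 w G : ℕ → ℝ) (hU : ∀ n, 0 ≤ U n) (hU0 : ∀ n, 0 ≤ U0 n) (hw : ∀ n, 0 ≤ w n)
    (hG0 : ∀ j, 0 ≤ G j) (k : ℕ)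
    (hG : ∀ j m : ℕ, 1 ≤ j → k < m → (j - 1) * k < m → m < (j + 1) * k → w m ≤ G j)
    (a e r : ℕ) (he : e ≤ a * k + r) (hr : r < k) :
    ∑ t ∈ Finset.range (a * k + r - e + 1), ∑ m ∈ Finset.Ioc k (a * k + r - e),
      (if t + m ≤ a * k + r - e then U0 t * w m * U (a * k + r - e - t - m) else 0) ≤
    ∑ i ∈ Finset.range (a + 1), ∑ i' ∈ Finset.range (a + 1),
      (∑ r' ∈ Finset.range k, if e ≤ i * k + r' then U0 (i * k + r' - e) else 0) *
      (if i < i' then G (i' - i) else 0) *
      (∑ e' ∈ Finset.range k, if e' ≤ (a - i') * k + r then U ((a - i') * k + r - e') else 0) := by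
  classical
  set g : ℕ → ℕ → ℝ := fun u v => if e ≤ u ∧ u + k < v ∧ v ≤ a * k + r then
    U0 (u - e) * w (v - u) * U (a * k + r - v) else 0 with hgdef
  have hg0 : ∀ u v, 0 ≤ g u v := by
    intro u v
    rw [hgdef]
    simp only
    split_ifs
    · exact mul_nonneg (mul_nonneg (hU0 _) (hw _)) (hU _)
    · exact le_rfl
  have hN : (a + 1) * k = a * k + k := by ring
  have h1 : ∑ t ∈ Finset.range (a * k + r - e + 1), ∑ m ∈ Finset.Ioc k (a * k + r - e),
      (if t + m ≤ a * k + r - e then U0 t * w m * U (a * k + r - e - t - m) else 0) ≤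
      ∑ t ∈ Finset.range (a * k + r - e + 1), ∑ v ∈ Finset.range ((a + 1) * k), g (e + t) v := by
    apply Finset.sum_le_sum
    intro t ht
    rw [Finset.mem_range] at ht
    rw [← Finset.sum_filter]
    have h2 : ∑ m ∈ (Finset.Ioc k (a * k + r - e)).filter (fun m => t + m ≤ a * k + r - e),
        U0 t * w m * U (a * k + r - e - t - m) =
        ∑ m ∈ (Finset.Ioc k (a * k + r - e)).filter (fun m => t + m ≤ a * k + r - e),
        g (e + t) (e + t + m) := by
      apply Finset.sum_congr rfl
      intro m hm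
      simp only [Finset.mem_filter, Finset.mem_Ioc] at hm
      rw [hgdef]
      simp only
      rw [if_pos ⟨by omega, by omega, by omega⟩]
      have e1 : e + t - e = t := by omega
      have e2 : e + t + m - (e + t) = m := by omega
      have e3 : a * k + r - (e + t + m) = a * k + r - e - t - m := by omega
      rw [e1, e2, e3]
    rw [h2]
    apply vsum_shift _ _ _ (fun v => g (e + t) v) (fun v => hg0 _ v)
    intro m hm
    simp only [Finset.mem_filter, Finset.mem_Ioc] at hm
    omega
  refine h1.trans ?_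
  refine (vsum_shift _ ((a + 1) * k) e (fun u => ∑ v ∈ Finset.range ((a + 1) * k), g u v)
    (fun u => Finset.sum_nonneg fun v _ => hg0 u v) ?_).trans ?_
  · intro t ht
    rw [Finset.mem_range] at ht
    omega
  rw [vsum_cells]
  apply Finset.sum_le_sum
  intro i hi
  rw [Finset.mem_range] at hi
  have h3 : ∀ r' ∈ Finset.range k, ∑ v ∈ Finset.range ((a + 1) * k), g (i * k + r') v =
      ∑ i' ∈ Finset.range (a + 1), ∑ e' ∈ Finset.range k, g (i * k + r') (i' * k + e') :=
    fun r' _ => vsum_cells _ _ _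
  rw [Finset.sum_congr rfl h3, Finset.sum_comm]
  apply Finset.sum_le_sum
  intro i' hi'
  rw [Finset.mem_range] at hi'
  rw [Finset.sum_mul, Finset.sum_mul]
  apply Finset.sum_le_sum
  intro r' hr'
  rw [Finset.mem_range] at hr'
  rw [Finset.mul_sum]
  apply Finset.sum_le_sum
  intro e' he'
  rw [Finset.mem_range] at he'
  rw [hgdef]
  simp only
  by_cases hc : e ≤ i * k + r' ∧ i * k + r' + k < i' * k + e' ∧ i' * k + e' ≤ a * k + r
  · rw [if_pos hc]
    have hlt : i < i' := by
      by_contra hle
      have : i' * k ≤ i * k := Nat.mul_le_mul_right k (by omega)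
      omega
    obtain ⟨d, rfl⟩ : ∃ d, i' = i + d := ⟨i' - i, by omega⟩
    have hd : 1 ≤ d := by omega
    obtain ⟨c, hc2⟩ : ∃ c, a = i + d + c := ⟨a - (i + d), by omega⟩
    have e4 : (i + d) * k = i * k + d * k := by ring
    have e5 : (d - 1) * k + k = d * k := by
      obtain ⟨d', rfl⟩ : ∃ d', d = d' + 1 := ⟨d - 1, by omega⟩
      rw [Nat.add_sub_cancel]
      ring
    have e6 : (d + 1) * k = d * k + k := by ring
    have e7 : a * k = i * k + d * k + (a - (i + d)) * k := by
      have : a - (i + d) = c := by omega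
      rw [this, hc2]
      ring
    have h5 : w ((i + d) * k + e' - (i * k + r')) ≤ G (i + d - i) := by
      have e8 : i + d - i = d := by omega
      rw [e8]
      apply hG d _ hd
      · omega
      · omega
      · omega
    rw [if_pos hc.1, if_pos hlt, if_pos (by omega)]
    have e9 : a * k + r - ((i + d) * k + e') = (a - (i + d)) * k + r - e' := by omega
    rw [e9]
    apply mul_le_mul_of_nonneg_right _ (hU _)
    exact mul_le_mul_of_nonneg_left h5 (hU0 _)
  · rw [if_neg hc]
    apply mul_nonneg
    · apply mul_nonneg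
      · split_ifs
        · exact hU0 _
        · exact le_rfl
      · split_ifs
        · exact hG0 _
        · exact le_rfl
    · split_ifs
      · exact hU _
      · exact le_rfl

theorem pf_VDC (hUDC : T_UDC) : T_VDC := by
  intro K k b hk G hG0 hG a
  set U : ℕ → ℝ := uu (khr K k b) with hUdef
  set U0 : ℕ → ℝ := uu (k0 K k b) with hU0def
  have hk0 : ∀ n, 0 ≤ k0 K k b n := by
    intro n
    unfold k0
    split_ifs
    · exact khr_nonneg K k b n
    · exact le_rfl
  have hU : ∀ n, 0 ≤ U n := fun n => uu_nonneg _ (khr_nonneg K k b) n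
  have hU0 : ∀ n, 0 ≤ U0 n := fun n => uu_nonneg _ hk0 n
  have h1 : VR (khr K k b) k a ≤ ∑ e ∈ Finset.range k, ∑ r ∈ Finset.range k,
      ((if e ≤ a * k + r then U0 (a * k + r - e) else 0) +
      ∑ i ∈ Finset.range (a + 1), ∑ i' ∈ Finset.range (a + 1),
      (∑ r' ∈ Finset.range k, if e ≤ i * k + r' then U0 (i * k + r' - e) else 0) *
      (if i < i' then G (i' - i) else 0) *
      (∑ e' ∈ Finset.range k,
        if e' ≤ (a - i') * k + r then U ((a - i') * k + r - e') else 0)) := by
    unfold VR
    apply Finset.sum_le_sum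
    intro e he
    apply Finset.sum_le_sum
    intro r hr
    rw [Finset.mem_range] at hr
    by_cases hc : e ≤ a * k + r
    · rw [if_pos hc, if_pos hc]
      refine (hUDC K k b (a * k + r - e)).trans ?_
      apply add_le_add le_rfl
      exact vterm U U0 (fun m => kk K m / 2) G hU hU0
        (fun m => div_nonneg (kk_nonneg K m) (by norm_num)) hG0 k hG a e r hc hr
    · rw [if_neg hc, if_neg hc, zero_add]
      apply Finset.sum_nonneg
      intro i _
      apply Finset.sum_nonneg
      intro i' _
      apply mul_nonneg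
      · apply mul_nonneg
        · apply Finset.sum_nonneg
          intro r' _
          split_ifs
          · exact hU0 _
          · exact le_rfl
        · split_ifs
          · exact hG0 _
          · exact le_rfl
      · apply Finset.sum_nonneg
        intro e' _
        split_ifs
        · exact hU _
        · exact le_rfl
  refine h1.trans (le_of_eq ?_)
  have h2 : ∀ e ∈ Finset.range k, ∑ r ∈ Finset.range k,
      ((if e ≤ a * k + r then U0 (a * k + r - e) else 0) +
      ∑ i ∈ Finset.range (a + 1), ∑ i' ∈ Finset.range (a + 1),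
      (∑ r' ∈ Finset.range k, if e ≤ i * k + r' then U0 (i * k + r' - e) else 0) *
      (if i < i' then G (i' - i) else 0) *
      (∑ e' ∈ Finset.range k,
        if e' ≤ (a - i') * k + r then U ((a - i') * k + r - e') else 0)) =
      (∑ r ∈ Finset.range k, (if e ≤ a * k + r then U0 (a * k + r - e) else 0)) +
      ∑ r ∈ Finset.range k, ∑ i ∈ Finset.range (a + 1), ∑ i' ∈ Finset.range (a + 1),
      (∑ r' ∈ Finset.range k, if e ≤ i * k + r' then U0 (i * k + r' - e) else 0) *
      (if i < i' then G (i' - i) else 0) *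
      (∑ e' ∈ Finset.range k,
        if e' ≤ (a - i') * k + r then U ((a - i') * k + r - e') else 0) :=
    fun e _ => Finset.sum_add_distrib
  rw [Finset.sum_congr rfl h2, Finset.sum_add_distrib]
  have h3 := vswap (Finset.range k) (Finset.range k) (Finset.range (a + 1))
    (Finset.range (a + 1))
    (fun e i => ∑ r' ∈ Finset.range k, if e ≤ i * k + r' then U0 (i * k + r' - e) else 0)
    (fun r i' => ∑ e' ∈ Finset.range k,
        if e' ≤ (a - i') * k + r then U ((a - i') * k + r - e') else 0)
    (fun i i' => if i < i' then G (i' - i) else 0)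
  rw [h3]
  unfold VR
  apply congrArg₂ (· + ·) rfl
  apply Finset.sum_congr rfl
  intro i _
  have h4 : ∀ i' ∈ Finset.range (a + 1),
      (∑ e ∈ Finset.range k, ∑ r' ∈ Finset.range k,
        if e ≤ i * k + r' then U0 (i * k + r' - e) else 0) *
      (if i < i' then G (i' - i) else 0) *
      (∑ r ∈ Finset.range k, ∑ e' ∈ Finset.range k,
        if e' ≤ (a - i') * k + r then U ((a - i') * k + r - e') else 0) =
      (if i < i' then (∑ e ∈ Finset.range k, ∑ r' ∈ Finset.range k,
        if e ≤ i * k + r' then U0 (i * k + r' - e) else 0) * G (i' - i) *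
        (∑ r ∈ Finset.range k, ∑ e' ∈ Finset.range k,
        if e' ≤ (a - i') * k + r then U ((a - i') * k + r - e') else 0) else 0) := by
    intro i' _
    split_ifs
    · rfl
    · rw [mul_zero, zero_mul]
  rw [Finset.sum_congr rfl h4, vreidx a i (fun i' => (∑ e ∈ Finset.range k,
    ∑ r' ∈ Finset.range k, if e ≤ i * k + r' then U0 (i * k + r' - e) else 0) * G (i' - i) *
        (∑ r ∈ Finset.range k, ∑ e' ∈ Finset.range k,
        if e' ≤ (a - i') * k + r then U ((a - i') * k + r - e') else 0))]
  apply Finset.sum_congr rfl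
  intro j _
  split_ifs with hij
  · have e1 : i + j - i = j := by omega
    have e2 : a - (i + j) = a - i - j := by omega
    rw [e1, e2, Finset.sum_comm (s := Finset.range k) (t := Finset.range k)
      (f := fun r e' => if e' ≤ (a - i - j) * k + r then U ((a - i - j) * k + r - e') else 0)]
  · rfl

end Pool.Agent.H63.CU
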